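import Pool.Agent.L7h3.QD.Stm

/-!
Project QD, parts ERA and LHA: the erasing relation in class (a) and the link with the central value.
-/

set_option autoImplicit false
set_option linter.unusedVariables false
set_option linter.unusedSectionVars false

open Filter Complex
open scoped Topology PeriodPair Classical
open H667R3 hiding sq

namespace Pool.Agent.L7h93.QD

open Pool.Agent.Y699
open Pool.Agent.TH936.CM
open Pool.Agent.L7h3.QD
open H385 (ZI RQ im1 nrm)
open Pool.Agent.W164.RC (tc_mul tc_star two2 prim_iff_dvd unit_norm unit_cases)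
open Pool.Agent.H304R2.EC.A1 (prim prim_mul prim_cancel prim_one prim_norm_odd prim_star eq_one_of_prim
  norm_def' re_mul' im_mul' eq_of_dvd prim_ne_zero exists_prim)
open Pool.Agent.H304R3.HK (tc HC LH)

variable {L : PeriodPair} {Ω : ℂ} {ι : Type} [DecidableEq ι] {pr : ι → ZI}

/-- the division sum is a regularized sum over all the elements -/
lemma sum_EG (h : IsLat L RG Ω) {D : ZI} (hD0 : D ≠ 0) [Fintype (RQ D)] {F : ZI → ℂ}
    (hF : ∀ a, ‖F a‖ ≤ 1) (hper : ∀ a b, D ∣ a - b → F a = F b) {δ : ℝ} (hδ : 0 < δ) :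
    ∑ q : RQ D, F q.out * EG Ω δ (zq Ω D q.out) =
      (tc D / Ω) * RS F (δ * Complex.normSq (Ω / tc D)) := by
  have hDc := tc_ne hD0
  have hΩ := h.ne
  set c : ℂ := Ω / tc D with hc
  have hc0 : c ≠ 0 := div_ne_zero hΩ hDc
  have hcn : 0 < Complex.normSq c := Complex.normSq_pos.2 hc0
  have e0 : tc D / Ω = c⁻¹ := by rw [hc, inv_div]
  have e1 : c⁻¹ * RS F (δ * Complex.normSq c) = ∑' a : ZI, F a * fd δ (c * tc a) := by
    unfold RS
    rw [← tsum_mul_left]
    refine tsum_congr fun a => ?_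
    rw [fd_mul]
    ring
  have hs1 : Summable (fun a : ZI => F a * fd δ (c * tc a)) := by
    have h1 := (summ_bd h (δ := δ * Complex.normSq c) (by positivity) hF).mul_left c⁻¹
    refine h1.congr fun a => ?_
    rw [fd_mul]
    ring
  have hs2 : Summable (fun p : RQ D × ZI => F (prt' D hD0 p) * fd δ (c * tc (prt' D hD0 p))) :=
    ((prt' D hD0).summable_iff (f := fun a => F a * fd δ (c * tc a))).2 hs1
  rw [e0, e1, ← (prt' D hD0).tsum_eq, hs2.tsum_prod' (fun q => hs2.prod_factor q), tsum_fintype]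
  refine Finset.sum_congr (by ext; simp) fun q _ => ?_
  unfold EG
  rw [← tsum_mul_left]
  refine tsum_congr fun b => ?_
  have e2 : F (prt' D hD0 (q, b)) = F q.out := by
    apply hper
    rw [prt'_apply]
    exact ⟨b, by ring⟩
  have e3 : c * tc (prt' D hD0 (q, b)) = zq Ω D q.out + Ω * tc b := by
    rw [prt'_apply, tc_add, tc_mul, hc]
    unfold zq
    field_simp
  rw [e2, e3]

lemma pi1_isUnit {D : ZI} (hD : prim D) : IsUnit (Ideal.Quotient.mk (Ideal.span {D}) pi1) := by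
  obtain ⟨t, ht⟩ := (prim_iff_dvd D).1 hD
  have h2 : pi1 ∣ two2 := by
    refine ⟨2, ?_⟩
    decide
  obtain ⟨u, hu⟩ := h2
  refine IsUnit.of_mul_eq_one (Ideal.Quotient.mk (Ideal.span {D}) (-(u * t))) ?_
  rw [← map_mul, ← map_one (Ideal.Quotient.mk (Ideal.span {D})), Ideal.Quotient.mk_eq_mk_iff_sub_mem,
    Ideal.mem_span_singleton]
  refine ⟨-1, ?_⟩
  rw [hu] at ht
  linear_combination ht

/-- the difference sum -/
noncomputable def NN (Ω : ℂ) (pr : ι → ZI) (V : Finset ι) (e : ι → ℕ) [Fintype (RQ (DD pr V))]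
    (δ : ℝ) : ℂ :=
  ∑ q : RQ (DD pr V), tc (c4 pr V e q.out) * (EG Ω δ (zq Ω (DD pr V) q.out + Ω * tc 1 / tc pi1) -
    EG Ω δ (zq Ω (DD pr V) q.out))

/-- the regularized sum over all elements -/
noncomputable def RR (pr : ι → ZI) (V : Finset ι) (e : ι → ℕ) (δ : ℝ) : ℂ :=
  RS (fun a => tc (c4 pr V e a)) δ

lemma NN_eq (h : IsLat L RG Ω) (hp : PF pr) (V : Finset ι) (e : ι → ℕ) [Fintype (RQ (DD pr V))]
    {δ : ℝ} (hδ : 0 < δ) :
    NN Ω pr V e δ = (tc (DD pr V) / Ω) * ((1 + I) * (tc (c4 pr V e pi1))⁻¹ *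
      RR pr V e (δ / 2 * Complex.normSq (Ω / tc (DD pr V))) -
      2 * RR pr V e (δ * Complex.normSq (Ω / tc (DD pr V)))) := by
  have hD0 : (DD pr V) ≠ 0 := DD_ne hp V
  have hDp : prim (DD pr V) := DD_prim hp V
  have hper : ∀ a b, (DD pr V) ∣ a - b → tc (c4 pr V e a) = tc (c4 pr V e b) := by
    intro a b hab
    rw [c4_per hp V e (a := a) (b := b) hab]
  have h1 := sum_EG h hD0 (F := fun a => tc (c4 pr V e a)) (fun a => c4_bd hp V e a) hper hδ
  have h2 := sum_EG h hD0 (F := fun a => tc (c4 pr V e a)) (fun a => c4_bd hp V e a) hper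
    (δ := δ / 2) (by positivity)
  have hpi : ∀ i ∈ V, ¬ pr i ∣ pi1 := by
    intro i hi hd
    obtain ⟨a, ha⟩ := hd
    have h3 := congrArg Zsqrtd.norm ha
    rw [Zsqrtd.norm_mul] at h3
    have h4 : Zsqrtd.norm pi1 = 2 := by decide
    have h5 := prim_norm_odd (hp.pp i).prm
    have h6 := (hp.pp i).pr.not_isUnit
    rw [h4] at h3
    have h7 : (pr i).norm ∣ 2 := ⟨a.norm, h3⟩
    have h8 : (pr i).norm.natAbs ∣ 2 := by
      have := Int.natAbs_dvd_natAbs.2 h7
      simpa using this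
    have h9 := (Nat.dvd_prime Nat.prime_two).1 h8
    rcases h9 with h9 | h9
    · exact h6 (Zsqrtd.norm_eq_one_iff.1 h9)
    · omega
  have hc0 : tc (c4 pr V e pi1) ≠ 0 := by
    apply tc_ne
    intro h0
    have := c4_norm hp V e hpi
    rw [h0, Zsqrtd.norm_zero] at this
    norm_num at this
  -- the sum at the doubled points
  have h3 : ∑ q : RQ (DD pr V), tc (c4 pr V e q.out) * EG Ω (δ / 2) ((1 + I) * zq Ω (DD pr V) q.out) =
      (tc (c4 pr V e pi1))⁻¹ * ∑ q : RQ (DD pr V), tc (c4 pr V e q.out) * EG Ω (δ / 2) (zq Ω (DD pr V) q.out) := by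
    rw [← sum_unit_mul (pi1_isUnit hDp) (fun q => tc (c4 pr V e q.out) * EG Ω (δ / 2) (zq Ω (DD pr V) q.out)),
      Finset.mul_sum]
    refine Finset.sum_congr rfl fun q _ => ?_
    have e1 : tc (c4 pr V e (Ideal.Quotient.mk (Ideal.span {(DD pr V)}) pi1 * q).out) =
        tc (c4 pr V e pi1) * tc (c4 pr V e q.out) := by
      rw [hper _ _ (out_mul (DD pr V) pi1 q), c4_mul hp, tc_mul]
    have e2 : EG Ω (δ / 2) (zq Ω (DD pr V) (Ideal.Quotient.mk (Ideal.span {(DD pr V)}) pi1 * q).out) =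
        EG Ω (δ / 2) ((1 + I) * zq Ω (DD pr V) q.out) := by
      apply EG_per h
      have h5 := zq_sub h hD0 (out_mul (DD pr V) pi1 q)
      rwa [zq_mul, tc_pi1] at h5
    rw [e1, e2]
    field_simp
  have h4 : NN Ω pr V e δ = (1 + I) * ∑ q : RQ (DD pr V), tc (c4 pr V e q.out) *
      EG Ω (δ / 2) ((1 + I) * zq Ω (DD pr V) q.out) -
      2 * ∑ q : RQ (DD pr V), tc (c4 pr V e q.out) * EG Ω δ (zq Ω (DD pr V) q.out) := by
    unfold NN
    rw [Finset.mul_sum, Finset.mul_sum, ← Finset.sum_sub_distrib]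
    refine Finset.sum_congr rfl fun q _ => ?_
    have h5 := EG_dist h hδ (zq Ω (DD pr V) q.out)
    linear_combination (tc (c4 pr V e q.out)) * h5
  unfold RR
  rw [h4, h3, h1, h2]
  ring

/-- the limit of the difference sum -/
lemma NN_lim (h : GLat L Ω) (hp : PF pr) {V : Finset ι} (hV : V.Nonempty) (e : ι → ℕ)
    [Fintype (RQ (DD pr V))] :
    Tendsto (NN Ω pr V e) (𝓝[>] 0) (𝓝 (2 * (1 + I) ^ 3 * MG (ga L) 1 Ω pr V e)) := by
  have hD0 : (DD pr V) ≠ 0 := DD_ne hp V
  have hDp : prim (DD pr V) := DD_prim hp V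
  have h1I : (1 + I : ℂ) ≠ 0 := one_I_ne
  set s := Ω * tc 1 / tc pi1 with hs
  have h2s : 2 * s ∈ L.lattice := by
    have e : 2 * s = tc ⟨1, -1⟩ * Ω := by
      rw [hs, tc_one, tc_pi1, mul_one, div_eq_mul_inv, inv_one_I]
      unfold tc
      push_cast
      ring
    rw [e]
    exact lat_mul h.lat _ h.om
  have key : ∀ q : RQ (DD pr V), Tendsto (fun δ : ℝ => tc (c4 pr V e q.out) * (EG Ω δ (zq Ω (DD pr V) q.out + s) -
      EG Ω δ (zq Ω (DD pr V) q.out))) (𝓝[>] 0)
      (𝓝 (1 / 2 * (1 + I) ^ 3 * (tc (c4 pr V e (1 * q.out)) * ga L (zq Ω (DD pr V) q.out)))) := by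
    intro q
    rw [one_mul]
    by_cases hq : (DD pr V) ∣ q.out
    · obtain ⟨i, hi⟩ := hV
      rw [c4_zero e hi ((dvd_DD hi).trans hq), tc_zero]
      simp only [zero_mul, mul_zero]
      exact tendsto_const_nhds
    · have n1 := zq_notMem h hD0 hq
      have hOT := zq_OT h hDp hq
      have h2z := hOT.two h
      have a1 : zq Ω (DD pr V) q.out + s ∉ L.lattice := by
        intro h'
        apply h2z
        have h3 := L.lattice.smul_mem (2 : ℤ) h'
        have h4 := sub_mem h3 h2s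
        have e : (2 : ℤ) • (zq Ω (DD pr V) q.out + s) - 2 * s = 2 * zq Ω (DD pr V) q.out := by
          rw [zsmul_eq_mul]; push_cast; ring
        rwa [e] at h4
      have a2 : zq Ω (DD pr V) q.out - s ∉ L.lattice := by
        intro h'
        apply h2z
        have h3 := L.lattice.smul_mem (2 : ℤ) h'
        have h4 := add_mem h3 h2s
        have e : (2 : ℤ) • (zq Ω (DD pr V) q.out - s) + 2 * s = 2 * zq Ω (DD pr V) q.out := by
          rw [zsmul_eq_mul]; push_cast; ring
        rwa [e] at h4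
      have h3 := ((lim_Dd h.lat n1 h.s1 a1 a2).const_mul (1 / 2)).const_mul (tc (c4 pr V e q.out))
      have e1 : tc (c4 pr V e q.out) * (1 / 2 * Dd L (zq Ω (DD pr V) q.out) (Ω * tc 1 / tc pi1)) =
          1 / 2 * (1 + I) ^ 3 * (tc (c4 pr V e q.out) * ga L (zq Ω (DD pr V) q.out)) := by
        unfold Dd ga
        rw [h.wp_s1, sub_zero, ← div_div]
        field_simp
      rw [e1] at h3
      refine h3.congr fun δ => ?_
      rw [← EG_eq, ← EG_eq, ← EG_eq]
      have e : EG Ω δ (zq Ω (DD pr V) q.out - s) = EG Ω δ (zq Ω (DD pr V) q.out + s) := by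
        apply EG_per h.lat
        have e3 : zq Ω (DD pr V) q.out - s - (zq Ω (DD pr V) q.out + s) = -(2 * s) := by ring
        rw [e3]
        exact neg_mem h2s
      rw [← hs, e]; ring
  have h5 := tendsto_finsetSum Finset.univ fun q _ => key q
  rw [← Finset.mul_sum] at h5
  have e5 : 1 / 2 * (1 + I) ^ 3 * ∑ q : RQ (DD pr V), tc (c4 pr V e (1 * q.out)) * ga L (zq Ω (DD pr V) q.out) =
      2 * (1 + I) ^ 3 * MG (ga L) 1 Ω pr V e := by
    unfold MG
    ring
  rw [e5] at h5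
  exact h5

/-- erasing for the regularized sums over all the elements -/
lemma RR_erase (h : IsLat L RG Ω) (hp : PF pr) {V : Finset ι} {i : ι} (hi : i ∈ V) {e : ι → ℕ}
    (he : e i = 0) {δ : ℝ} (hδ : 0 < δ) :
    RR pr V e δ = RR pr (V.erase i) e δ - (tc (c4 pr (V.erase i) e (pr i))) / tc (pr i) *
        RR pr (V.erase i) e (δ * Complex.normSq (tc (pr i))) := by
  have h1 := RS_dvd (π := pr i) (hp.pp i).ne (fun a => tc (c4 pr (V.erase i) e a)) δ
  have h3 : RS (fun b => (fun a => tc (c4 pr (V.erase i) e a)) (pr i * b))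
      (δ * Complex.normSq (tc (pr i))) =
      tc (c4 pr (V.erase i) e (pr i)) * RR pr (V.erase i) e (δ * Complex.normSq (tc (pr i))) := by
    unfold RR RS
    rw [← tsum_mul_left]
    refine tsum_congr fun b => ?_
    show tc (c4 pr (V.erase i) e (pr i * b)) * _ = _
    rw [c4_mul hp, tc_mul, mul_assoc]
  rw [h3] at h1
  have h4 : ∀ a, tc (c4 pr V e a) = tc (c4 pr (V.erase i) e a) -
      (if pr i ∣ a then tc (c4 pr (V.erase i) e a) else 0) := by
    intro a
    have h5 : c4 pr V e a = fe (pr i) 0 a * c4 pr (V.erase i) e a := by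
      unfold c4
      rw [← Finset.mul_prod_erase V _ hi, he]
    rw [h5]
    unfold fe
    by_cases hd : pr i ∣ a
    · rw [if_pos hd, if_pos hd, zero_mul, tc_zero, sub_self]
    · rw [if_neg hd, if_neg hd, pow_zero, one_mul, sub_zero]
  have hs1 := summ_bd h hδ (c4_bd hp (V.erase i) e)
  have hs2 : Summable (fun a : ZI => (if pr i ∣ a then tc (c4 pr (V.erase i) e a) else 0) *
      fd δ (tc a)) := by
    refine summ_bd h hδ (C := 1) fun a => ?_
    split_ifs
    · exact c4_bd hp _ _ a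
    · rw [norm_zero]; norm_num
  have h6 : RR pr V e δ = RR pr (V.erase i) e δ -
      RS (fun a => if pr i ∣ a then (fun a => tc (c4 pr (V.erase i) e a)) a else 0) δ := by
    unfold RR RS
    rw [← hs1.tsum_sub hs2]
    refine tsum_congr fun a => ?_
    show tc (c4 pr V e a) * _ = _
    rw [h4 a]
    ring
  rw [h6, h1]
  ring

/-- erasing for the difference sums -/
lemma NN_erase (h : IsLat L RG Ω) (hp : PF pr) {V : Finset ι} {i : ι} (hi : i ∈ V) {e : ι → ℕ}
    (he : e i = 0) [Fintype (RQ (DD pr V))] [Fintype (RQ (DD pr (V.erase i)))] {δ : ℝ} (hδ : 0 < δ) :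
    NN Ω pr V e δ = tc (pr i) * NN Ω pr (V.erase i) e (δ * (Complex.normSq (tc (pr i)))⁻¹) -
      tc (c4 pr (V.erase i) e (pr i)) * NN Ω pr (V.erase i) e δ := by
  have hΩ := h.ne
  have hπ0 := tc_ne (hp.pp i).ne
  have hn : 0 < Complex.normSq (tc (pr i)) := Complex.normSq_pos.2 hπ0
  have hD0 := tc_ne (DD_ne hp V)
  have hD0' := tc_ne (DD_ne hp (V.erase i))
  have hDV : tc (DD pr V) = tc (pr i) * tc (DD pr (V.erase i)) := by
    rw [← tc_mul]
    unfold DD
    rw [Finset.mul_prod_erase V pr hi]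
  have hcn' : 0 < Complex.normSq (Ω / tc (DD pr (V.erase i))) :=
    Complex.normSq_pos.2 (div_ne_zero hΩ hD0')
  have hcn : 0 < Complex.normSq (Ω / tc (DD pr V)) :=
    Complex.normSq_pos.2 (div_ne_zero hΩ hD0)
  have hk : Complex.normSq (Ω / tc (DD pr V)) =
      (Complex.normSq (tc (pr i)))⁻¹ * Complex.normSq (Ω / tc (DD pr (V.erase i))) := by
    rw [hDV, Complex.normSq_div, Complex.normSq_mul, Complex.normSq_div]
    field_simp
  have hcp : c4 pr V e pi1 = c4 pr (V.erase i) e pi1 := by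
    unfold c4
    rw [← Finset.mul_prod_erase V _ hi, he]
    have : fe (pr i) 0 pi1 = 1 := by
      unfold fe
      rw [if_neg, pow_zero]
      intro hd
      obtain ⟨a, ha⟩ := hd
      have h3 := congrArg Zsqrtd.norm ha
      rw [Zsqrtd.norm_mul] at h3
      have h4 : Zsqrtd.norm pi1 = 2 := by decide
      have h5 := prim_norm_odd (hp.pp i).prm
      have h6 := (hp.pp i).pr.not_isUnit
      rw [h4] at h3
      have h7 : (pr i).norm ∣ 2 := ⟨a.norm, h3⟩
      have h8 : (pr i).norm.natAbs ∣ 2 := by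
        have := Int.natAbs_dvd_natAbs.2 h7
        simpa using this
      have h9 := (Nat.dvd_prime Nat.prime_two).1 h8
      rcases h9 with h9 | h9
      · exact h6 (Zsqrtd.norm_eq_one_iff.1 h9)
      · omega
    rw [this, one_mul]
  rw [NN_eq h hp V e hδ, NN_eq h hp (V.erase i) e (mul_pos hδ (inv_pos.2 hn)),
    NN_eq h hp (V.erase i) e hδ, RR_erase h hp hi he (mul_pos (half_pos hδ) hcn),
    RR_erase h hp hi he (mul_pos hδ hcn), hcp, hDV]
  rw [hDV] at hk
  have e1 : δ / 2 * Complex.normSq (Ω / (tc (pr i) * tc (DD pr (V.erase i)))) *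
      Complex.normSq (tc (pr i)) = δ / 2 * Complex.normSq (Ω / tc (DD pr (V.erase i))) := by
    rw [hk]; field_simp
  have e2 : δ * Complex.normSq (Ω / (tc (pr i) * tc (DD pr (V.erase i)))) *
      Complex.normSq (tc (pr i)) = δ * Complex.normSq (Ω / tc (DD pr (V.erase i))) := by
    rw [hk]; field_simp
  have e3 : δ / 2 * Complex.normSq (Ω / (tc (pr i) * tc (DD pr (V.erase i)))) =
      δ * (Complex.normSq (tc (pr i)))⁻¹ / 2 * Complex.normSq (Ω / tc (DD pr (V.erase i))) := by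
    rw [hk]; ring
  have e4 : δ * Complex.normSq (Ω / (tc (pr i) * tc (DD pr (V.erase i)))) =
      δ * (Complex.normSq (tc (pr i)))⁻¹ * Complex.normSq (Ω / tc (DD pr (V.erase i))) := by
    rw [hk]; ring
  rw [e1, e2, e3, e4]
  field_simp
  ring

/-- part ERA -/
theorem t_ERA : S_ERA := by
  intro L Ω h ι _ pr hp V e i hi he hW _ _
  have hWe : Wt pr (V.erase i) e = Wt pr V e := by
    unfold Wt
    rw [← Finset.add_sum_erase V _ hi, he, zero_mul, zero_add]
  have hVe : (V.erase i).Nonempty := by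
    by_contra hc
    rw [Finset.not_nonempty_iff_eq_empty] at hc
    rw [← hWe, hc] at hW
    simp [Wt] at hW
  have hπ0 := tc_ne (hp.pp i).ne
  have hn : 0 < Complex.normSq (tc (pr i)) := Complex.normSq_pos.2 hπ0
  have l1 := NN_lim h hp ⟨i, hi⟩ e
  have l2 := NN_lim h hp hVe e
  have l3 := ((tendsto_scale l2 (inv_pos.2 hn)).const_mul (tc (pr i))).sub
    (l2.const_mul (tc (c4 pr (V.erase i) e (pr i))))
  have l4 := tendsto_nhds_unique (l1.congr' (by
    filter_upwards [self_mem_nhdsWithin] with δ (hδ : 0 < δ)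
    exact NN_erase h.lat hp hi he hδ)) l3
  have h1I : (1 + I : ℂ) ≠ 0 := one_I_ne
  have h2 : (2 * (1 + I) ^ 3 : ℂ) ≠ 0 := mul_ne_zero two_ne_zero (pow_ne_zero 3 h1I)
  apply mul_left_cancel₀ h2
  linear_combination l4

/-- part LHA -/
theorem t_LHA (hHC : S_HCA) : S_LHA := by
  intro L Ω h ι _ pr hp V e hW he _ h0
  have hV : V.Nonempty := by
    by_contra hc
    rw [Finset.not_nonempty_iff_eq_empty] at hc
    rw [hc] at hW
    simp [Wt] at hW
  have h1 := center (hHC ι pr hp V e hW he)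
  rw [h0, mul_zero] at h1
  have h2 : Tendsto (fun δ : ℝ => RR pr V e (Real.pi * δ)) (𝓝[>] 0) (𝓝 0) := by
    have h3 := (Complex.continuous_conj.tendsto 0).comp h1
    rw [map_zero] at h3
    refine h3.congr fun δ => ?_
    simp only [Function.comp_apply]
    rw [Complex.conj_tsum]
    unfold RR RS
    refine tsum_congr fun a => ?_
    rw [XXa_apply, map_mul, Complex.conj_conj, Complex.conj_conj]
  have h3 : Tendsto (RR pr V e) (𝓝[>] 0) (𝓝 0) := by
    have h4 := tendsto_scale h2 (inv_pos.2 Real.pi_pos)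
    refine h4.congr fun δ => ?_
    congr 1
    field_simp
  have hcn : 0 < Complex.normSq (Ω / tc (DD pr V)) :=
    Complex.normSq_pos.2 (div_ne_zero h.lat.ne (tc_ne (DD_ne hp V)))
  have h4 := (((tendsto_scale h3 (half_pos hcn)).const_mul ((1 + I) * (tc (c4 pr V e pi1))⁻¹)).sub
    ((tendsto_scale h3 hcn).const_mul 2)).const_mul (tc (DD pr V) / Ω)
  rw [mul_zero, mul_zero, sub_zero, mul_zero] at h4
  have l1 := NN_lim h hp hV e
  have l4 := tendsto_nhds_unique (l1.congr' (by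
    filter_upwards [self_mem_nhdsWithin] with δ (hδ : 0 < δ)
    rw [NN_eq h.lat hp V e hδ]
    rw [show δ / 2 * Complex.normSq (Ω / tc (DD pr V)) = δ * (Complex.normSq (Ω / tc (DD pr V)) / 2)
      by ring])) h4
  have h1I : (1 + I : ℂ) ≠ 0 := one_I_ne
  have h2 : (2 * (1 + I) ^ 3 : ℂ) ≠ 0 := mul_ne_zero two_ne_zero (pow_ne_zero 3 h1I)
  exact (mul_eq_zero.1 l4).resolve_left h2

end Pool.Agent.L7h93.QD
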