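import Pool.Agent.L7h3.QD.Stm
import Pool.Agent.TH942.FG

/-!
Project QD, part FIN: finiteness from the `(1 + i)`-descent.
-/

set_option autoImplicit false

open NumberField WeierstrassCurve

namespace Pool.Agent.L7h93.QD

open Pool.Agent.Y715.Z (q4 q4_eqn)

section

variable {K : Type} [Field K] [DecidableEq K] {B j : K}

/-- the endomorphism `(x, y) ↦ (-x, j y)`, `j ^ 2 = -1`, on coordinates -/
lemma ns_j (hj : j ^ 2 = -1) {x y : K} (h : (q4 B).toAffine.Nonsingular x y) :
    (q4 B).toAffine.Nonsingular (-x) (j * y) := by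
  have hj0 : j ≠ 0 := by
    rintro rfl
    norm_num at hj
  rw [Affine.nonsingular_iff'] at h ⊢
  obtain ⟨h1, h2⟩ := h
  have h1' := q4_eqn.1 h1
  refine ⟨q4_eqn.2 ?_, ?_⟩
  · linear_combination (y ^ 2) * hj - h1'
  · simp only [q4] at h2 ⊢
    rcases h2 with h2 | h2
    · left
      intro h3
      apply h2
      linear_combination h3
    · right
      intro h3
      apply h2
      have h4 : j * (2 * y + 0 * x + 0) = 0 := by linear_combination h3
      exact (mul_eq_zero.1 h4).resolve_left hj0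

lemma slope_j (hj : j ^ 2 = -1) (h2 : (2 : K) ≠ 0) {x1 y1 x2 y2 : K}
    (h1 : (q4 B).toAffine.Equation x1 y1) (h1' : (q4 B).toAffine.Equation x2 y2)
    (hxy : ¬ (x1 = x2 ∧ y1 = (q4 B).toAffine.negY x2 y2)) :
    (q4 B).toAffine.slope (-x1) (-x2) (j * y1) (j * y2) = -j * (q4 B).toAffine.slope x1 x2 y1 y2 := by
  have hj0 : j ≠ 0 := by
    rintro rfl
    norm_num at hj
  by_cases hx : x1 = x2
  · have hy : y1 ≠ (q4 B).toAffine.negY x2 y2 := fun h => hxy ⟨hx, h⟩
    have hyy : y1 = y2 := Affine.Y_eq_of_Y_ne h1 h1' hx hy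
    subst hx
    subst hyy
    have hy0 : y1 ≠ 0 := by
      intro h0
      apply hy
      simp [Affine.negY, q4, h0]
    rw [Affine.slope_of_Y_ne rfl hy, Affine.slope_of_Y_ne rfl (by
      intro h3
      apply hy0
      have h4 : (2 : K) * (j * y1) = 0 := by
        have h5 : j * y1 = (q4 B).toAffine.negY (-x1) (j * y1) := h3
        have h6 : (q4 B).toAffine.negY (-x1) (j * y1) = -(j * y1) := by simp [Affine.negY, q4]
        rw [h6] at h5
        linear_combination h5
      exact (mul_eq_zero.1 ((mul_eq_zero.1 h4).resolve_left h2)).resolve_left hj0)]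
    simp only [Affine.negY, q4]
    have e1 : j * y1 - (-(j * y1) - 0 * -x1 - 0) = 2 * j * y1 := by ring
    have e2 : y1 - (-y1 - 0 * x1 - 0) = 2 * y1 := by ring
    rw [e1, e2]
    field_simp
    linear_combination (3 * x1 ^ 2 + B) * hj
  · have hx' : -x1 ≠ -x2 := fun h => hx (neg_injective h)
    have hxs : x1 - x2 ≠ 0 := sub_ne_zero.2 hx
    rw [Affine.slope_of_X_ne hx, Affine.slope_of_X_ne hx']
    have e1 : -x1 - -x2 = -(x1 - x2) := by ring
    rw [e1]
    field_simp

/-- multiplication by `i` -/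
noncomputable def mi (hj : j ^ 2 = -1) (h2 : (2 : K) ≠ 0) : (q4 B).toAffine.Point →+ (q4 B).toAffine.Point where
  toFun P := match P with
    | 0 => 0
    | .some _ _ h => .some _ _ (ns_j hj h)
  map_zero' := rfl
  map_add' := by
    rintro (_ | ⟨x₁, y₁, h₁⟩) (_ | ⟨x₂, y₂, h₂⟩)
    any_goals rfl
    have hj0 : j ≠ 0 := by
      rintro rfl
      norm_num at hj
    have hn : ∀ x y : K, (q4 B).toAffine.negY x y = -y := by
      intro x y
      simp [Affine.negY, q4]
    by_cases hxy : x₁ = x₂ ∧ y₁ = (q4 B).toAffine.negY x₂ y₂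
    · rw [Affine.Point.add_of_Y_eq hxy.1 hxy.2]
      symm
      refine Affine.Point.add_of_Y_eq (by rw [hxy.1]) ?_
      rw [hxy.2, hn, hn]
      ring
    · have hxy' : ¬ (-x₁ = -x₂ ∧ j * y₁ = (q4 B).toAffine.negY (-x₂) (j * y₂)) := by
        rintro ⟨h3, h4⟩
        apply hxy
        refine ⟨neg_injective h3, ?_⟩
        rw [hn] at h4 ⊢
        exact mul_left_cancel₀ hj0 (by rw [h4]; ring)
      have hs := slope_j hj h2 h₁.1 h₂.1 hxy
      rw [Affine.Point.add_some hxy]
      have e3 := Affine.Point.add_some hxy' (h₁ := ns_j hj h₁) (h₂ := ns_j hj h₂)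
      refine Eq.trans ?_ e3.symm
      show Affine.Point.some _ _ _ = Affine.Point.some _ _ _
      rw [Affine.Point.some.injEq]
      set l := (q4 B).toAffine.slope x₁ x₂ y₁ y₂ with hl
      constructor
      · rw [hs]
        simp only [Affine.addX, q4]
        linear_combination (-(l ^ 2)) * hj
      · rw [hs]
        simp only [Affine.addY, Affine.negAddY, Affine.addX, Affine.negY, q4]
        linear_combination (-(j * l ^ 3)) * hj

lemma mi_some (hj : j ^ 2 = -1) (h2 : (2 : K) ≠ 0) {x y : K} (h : (q4 B).toAffine.Nonsingular x y) :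
    mi hj h2 (Affine.Point.some x y h) = Affine.Point.some (-x) (j * y) (ns_j hj h) := rfl

lemma mi_mi (hj : j ^ 2 = -1) (h2 : (2 : K) ≠ 0) (P : (q4 B).toAffine.Point) :
    mi hj h2 (mi hj h2 P) = -P := by
  rcases P with _ | ⟨x, y, h⟩
  · rfl
  · rw [mi_some, mi_some, Affine.Point.neg_some, Affine.Point.some.injEq]
    refine ⟨by ring, ?_⟩
    simp only [Affine.negY, q4]
    linear_combination y * hj

/-- a point whose abscissa is a square is divisible by `1 + i` -/
lemma div_sq [CharZero K] (hj : j ^ 2 = -1) (h2 : (2 : K) ≠ 0) (hB : B ≠ 0) {x y w : K}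
    (h : (q4 B).toAffine.Nonsingular x y) (hy : y ≠ 0) (hx : x = w ^ 2) :
    ∃ R : (q4 B).toAffine.Point, R + mi hj h2 R = Affine.Point.some x y h := by
  have hj0 : j ≠ 0 := by
    rintro rfl
    norm_num at hj
  have he := q4_eqn.1 h.1
  have hw : w ≠ 0 := by
    rintro rfl
    rw [hx] at he
    apply hy
    have : y ^ 2 = 0 := by rw [he]; ring
    exact pow_eq_zero_iff (two_ne_zero) |>.1 this
  obtain ⟨v, hv⟩ : ∃ v, y = w * v := ⟨y / w, by field_simp⟩
  have hv2 : v ^ 2 = w ^ 4 + B := by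
    have h1 : w ^ 2 * v ^ 2 = w ^ 2 * (w ^ 4 + B) := by
      have : y ^ 2 = w ^ 2 * v ^ 2 := by rw [hv]; ring
      rw [← this, he, hx]; ring
    exact mul_left_cancel₀ (pow_ne_zero 2 hw) h1
  obtain ⟨X, hX⟩ : ∃ X, X = j * (w ^ 2 + v) := ⟨_, rfl⟩
  have hq : X ^ 2 - 2 * j * w ^ 2 * X + B = 0 := by
    rw [hX]
    linear_combination ((w ^ 2 + v) ^ 2 - 2 * w ^ 2 * (w ^ 2 + v)) * hj - hv2
  have hX0 : X ≠ 0 := by
    intro h0
    apply hB
    rw [h0] at hq
    linear_combination hq
  have hjX : j * X = -(w ^ 2 + v) := by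
    rw [hX]
    linear_combination (w ^ 2 + v) * hj
  have hE : ((1 + j) * w * X) ^ 2 = X ^ 3 + B * X := by
    linear_combination (w ^ 2 * X ^ 2) * hj - X * hq
  have hell : (q4 B).toAffine.Δ ≠ 0 := by
    have : (q4 B).Δ = -64 * B ^ 3 := by
      simp only [WeierstrassCurve.Δ, WeierstrassCurve.b₂, WeierstrassCurve.b₄, WeierstrassCurve.b₆,
        WeierstrassCurve.b₈, q4]
      ring
    rw [this]
    exact mul_ne_zero (by norm_num) (pow_ne_zero 3 hB)
  have hR : (q4 B).toAffine.Nonsingular X ((1 + j) * w * X) :=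
    (Affine.equation_iff_nonsingular_of_Δ_ne_zero hell).1 (q4_eqn.2 hE)
  refine ⟨Affine.Point.some X ((1 + j) * w * X) hR, ?_⟩
  have hne : X ≠ -X := by
    intro h3
    apply hX0
    have h4 : (2 : K) * X = 0 := by linear_combination h3
    exact (mul_eq_zero.1 h4).resolve_left h2
  rw [mi_some, Affine.Point.add_of_X_ne hne, Affine.Point.some.injEq]
  have hs : (q4 B).toAffine.slope X (-X) ((1 + j) * w * X) (j * ((1 + j) * w * X)) = w := by
    rw [Affine.slope_of_X_ne hne]
    have e1 : X - -X = 2 * X := by ring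
    rw [e1, div_eq_iff (mul_ne_zero h2 hX0)]
    linear_combination (-(w * X)) * hj
  rw [hs]
  constructor
  · simp only [Affine.addX, q4]
    rw [hx]; ring
  · simp only [Affine.addY, Affine.negAddY, Affine.addX, Affine.negY, q4]
    rw [hv]
    linear_combination (-w) * hjX

/-- the point of order two -/
lemma ns_T (hB : B ≠ 0) : (q4 B).toAffine.Nonsingular 0 0 := by
  rw [Affine.nonsingular_iff']
  refine ⟨q4_eqn.2 (by ring), Or.inl ?_⟩
  simp only [q4]
  intro h
  apply hB
  linear_combination -h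

lemma two_nsmul_of_y {x : K} (h : (q4 B).toAffine.Nonsingular x 0) :
    Affine.Point.some x 0 h + Affine.Point.some x 0 h = 0 := by
  refine Affine.Point.add_self_of_Y_eq ?_
  simp [Affine.negY, q4]

/-- adding the point of order two -/
lemma add_T (h2 : (2 : K) ≠ 0) (hB : B ≠ 0) {x y : K} (hx : x ≠ 0) (h : (q4 B).toAffine.Nonsingular x y) :
    ∃ h', Affine.Point.some x y h + Affine.Point.some 0 0 (ns_T hB) =
      Affine.Point.some (B / x) (-(B * y / x ^ 2)) h' := by
  have he := q4_eqn.1 h.1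
  have hs : (q4 B).toAffine.slope x 0 y 0 = y / x := by
    rw [Affine.slope_of_X_ne hx, sub_zero, sub_zero]
  have e1 : (q4 B).toAffine.addX x 0 (y / x) = B / x := by
    simp only [Affine.addX, q4]
    field_simp
    linear_combination he
  have e2 : (q4 B).toAffine.addY x 0 y (y / x) = -(B * y / x ^ 2) := by
    simp only [Affine.addY, Affine.negAddY, Affine.negY]
    rw [e1]
    simp only [q4]
    field_simp
    ring
  have h3 := Affine.nonsingular_add h (ns_T hB) (fun hxy => hx hxy.1)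
  rw [hs, e1, e2] at h3
  refine ⟨h3, ?_⟩
  rw [Affine.Point.add_of_X_ne hx, Affine.Point.some.injEq, hs]
  exact ⟨e1, e2⟩

/-- the descent -/
lemma desc [CharZero K] (hj : j ^ 2 = -1) (h2 : (2 : K) ≠ 0) (hB : B ≠ 0)
    (H : ∀ x y : K, y ≠ 0 → y ^ 2 = x ^ 3 + B * x → ∃ w : K, x = w ^ 2 ∨ x = B * w ^ 2)
    (P : (q4 B).toAffine.Point) :
    ∃ R : (q4 B).toAffine.Point, (2 : ℤ) • (P - (R + mi hj h2 R)) = 0 := by
  rcases P with _ | ⟨x, y, h⟩
  · exact ⟨0, by
      rw [map_zero]
      show (2 : ℤ) • ((0 : (q4 B).toAffine.Point) - (0 + 0)) = 0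
      simp⟩
  · by_cases hy : y = 0
    · subst hy
      refine ⟨0, ?_⟩
      rw [map_zero, add_zero, sub_zero, two_zsmul]
      exact two_nsmul_of_y h
    · have he := q4_eqn.1 h.1
      obtain ⟨w, hw | hw⟩ := H x y hy he
      · obtain ⟨R, hR⟩ := div_sq hj h2 hB h hy hw
        exact ⟨R, by rw [hR, sub_self, smul_zero]⟩
      · have hw0 : w ≠ 0 := by
          rintro rfl
          apply hy
          rw [hw] at he
          have : y ^ 2 = 0 := by rw [he]; ring
          exact pow_eq_zero_iff (two_ne_zero) |>.1 this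
        have hx : x ≠ 0 := by
          rw [hw]
          exact mul_ne_zero hB (pow_ne_zero 2 hw0)
        obtain ⟨h', hT⟩ := add_T h2 hB hx h
        have hy' : -(B * y / x ^ 2) ≠ 0 :=
          neg_ne_zero.2 (div_ne_zero (mul_ne_zero hB hy) (pow_ne_zero 2 hx))
        obtain ⟨R, hR⟩ := div_sq hj h2 hB h' hy' (w := w⁻¹) (by
          rw [hw]
          field_simp)
        refine ⟨R, ?_⟩
        rw [hR, ← hT]
        have e1 : (Affine.Point.some x y h - (Affine.Point.some x y h + Affine.Point.some 0 0 (ns_T hB)) :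
            (q4 B).toAffine.Point) = -Affine.Point.some 0 0 (ns_T hB) := by abel
        rw [e1, smul_neg, two_zsmul, two_nsmul_of_y, neg_zero]

end

/-- a finitely generated abelian group in which twice every element is four times an element, is finite -/
lemma fin_of_two {A : Type} [AddCommGroup A] [Module.Finite ℤ A] (h : ∀ x : A, ∃ y : A, (2 : ℤ) • (x - (2 : ℤ) • y) = 0) :
    Finite A := by
  let f : A →ₗ[ℤ] A := LinearMap.lsmul ℤ A 2
  have h1 : LinearMap.range f ≤ Ideal.span {(2 : ℤ)} • LinearMap.range f := by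
    rintro _ ⟨x, rfl⟩
    obtain ⟨y, hy⟩ := h x
    have h2 : f x = (2 : ℤ) • f y := by
      show (2 : ℤ) • x = (2 : ℤ) • ((2 : ℤ) • y)
      rw [smul_sub, sub_eq_zero] at hy
      exact hy
    rw [h2]
    exact Submodule.smul_mem_smul (Ideal.mem_span_singleton_self 2) ⟨y, rfl⟩
  obtain ⟨r, hr, hr'⟩ := Submodule.exists_sub_one_mem_and_smul_eq_zero_of_fg_of_le_smul _ _
    (IsNoetherian.noetherian (LinearMap.range f)) h1
  have hr0 : r * 2 ≠ 0 := by
    rw [Ideal.mem_span_singleton] at hr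
    omega
  have hfg : AddGroup.FG A := Module.Finite.iff_addGroup_fg.1 inferInstance
  refine AddCommGroup.finite_of_fg_isAddTorsion A ?_
  intro x
  rw [isOfFinAddOrder_iff_zsmul_eq_zero]
  refine ⟨r * 2, hr0, ?_⟩
  rw [mul_smul]
  exact hr' _ ⟨x, rfl⟩

/-- part FIN -/
theorem t_FIN : Pool.Agent.L7h3.QD.S_FIN := by
  intro K _ _ j hj B hB H
  classical
  have h2 : (2 : K) ≠ 0 := two_ne_zero
  have hfg : AddGroup.FG (q4 B).toAffine.Point :=
    Pool.Agent.TH942.sfg (a := B) (b := 0) (by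
      have : 4 * B ^ 3 + 27 * (0 : K) ^ 2 = 4 * B ^ 3 := by ring
      rw [this]
      have h4 : (4 : K) ≠ 0 := by
        have : (4 : K) = 2 * 2 := by norm_num
        rw [this]
        exact mul_ne_zero h2 h2
      exact mul_ne_zero h4 (pow_ne_zero 3 hB))
  rw [← Module.Finite.iff_addGroup_fg] at hfg
  refine fin_of_two fun P => ?_
  obtain ⟨R, hR⟩ := desc hj h2 hB H P
  obtain ⟨S, hS⟩ := desc hj h2 hB H R
  refine ⟨mi hj h2 S, ?_⟩
  have h3 : (2 : ℤ) • (mi hj h2 (R - (S + mi hj h2 S))) = 0 := by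
    rw [← map_zsmul, hS, map_zero]
  have h4 : mi hj h2 (mi hj h2 S) = -S := mi_mi hj h2 S
  rw [map_sub, map_add, h4] at h3
  have e1 : P - (2 : ℤ) • mi hj h2 S = (P - (R + mi hj h2 R)) + (R - (S + mi hj h2 S)) +
      (mi hj h2 R - (mi hj h2 S + -S)) := by
    rw [two_zsmul]
    abel
  rw [e1, smul_add, smul_add, hR, hS, h3]
  simp

end Pool.Agent.L7h93.QD

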